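import Pool.Agent.helper31.GPR.Spec

/-!
# Project GPR (MP_7a3aac_co), row FIN (helper90)
-/

set_option autoImplicit false

namespace Pool.Agent.GPR

open Pool.Agent.helper25.QST

theorem FIN_two {V : Type} [AddCommGroup V] [Module (ZMod 2) V] (x : V) : x + x = 0 := by
  have h : ((2 : ZMod 2)) • x = 0 := by
    rw [show (2 : ZMod 2) = 0 from rfl, zero_smul]
  rw [← h, two_smul]

theorem FIN (hCHO : CHO_stmt) (hRKA : RKA_stmt) (hRKB : RKB_stmt) : FIN_stmt := by
  intro V _ _ _ n l S J V1 hn hl hln hA hS hV1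
  obtain ⟨h, g, hh, hg, hhg, hZ⟩ := hCHO V n l S J V1 hn hl hln hA hS hV1
  have hne : (Zh S J V1 h g).ncard ≠ 0 := by
    have : 0 < 2 ^ (n - 12 * l - 2) := by positivity
    omega
  have hne2 : (Zh S J V1 h g).Nonempty := by
    by_contra hcon
    rw [Set.not_nonempty_iff_eq_empty] at hcon
    rw [hcon, Set.ncard_empty] at hne
    exact hne rfl
  obtain ⟨x, hx⟩ := hne2
  have h1 := hRKA V n l S J V1 hn hln hA h g x hh hg hhg hx hZ
  obtain ⟨x1, x2, x3, x4, x5, x6⟩ := hx
  have h2 := hRKB V l S J V1 hA (by rw [hn]; exact hV1) h g x x1 x2 x3 x4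
  generalize (J x + J (x + h)) ∘ₗ (J x + J (x + g)) + (J x + J (x + g)) ∘ₗ (J x + J (x + h)) = M at h1 h2
  have hid : (⊤ : Submodule (ZMod 2) V) ≤
      LinearMap.range (M + (LinearMap.id : V →ₗ[ZMod 2] V)) ⊔ LinearMap.range M := by
    intro v _
    have e : v = (M + (LinearMap.id : V →ₗ[ZMod 2] V)) v + M v := by
      rw [LinearMap.add_apply, LinearMap.id_apply, add_right_comm, FIN_two, zero_add]
    rw [e]
    exact Submodule.add_mem_sup (LinearMap.mem_range_self _ _) (LinearMap.mem_range_self _ _)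
  have h3 : Module.finrank (ZMod 2) (⊤ : Submodule (ZMod 2) V) ≤
      Module.finrank (ZMod 2) (LinearMap.range (M + LinearMap.id)) +
        Module.finrank (ZMod 2) (LinearMap.range M) :=
    (Submodule.finrank_mono hid).trans (Submodule.finrank_add_le_finrank_add_finrank _ _)
  rw [finrank_top, hn] at h3
  omega

end Pool.Agent.GPR
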